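import Pool.Agent.M0n.Chain

/-!
# The ring of functions on `T^*[(𝔸² ∖ 0)/𝔾_m]`, weights `4` and `6`
-/

set_option autoImplicit false

open MvPolynomial

namespace Pool.Agent.MG.One

/-- The polynomials `f(a, b, τ)` which are invariant under `(a, b, τ) ↦ (u⁴ a, u⁶ b, u⁻¹⁰ τ)`. -/
noncomputable def Inv : Subalgebra ℂ (MvPolynomial (Fin 3) ℂ) where
  carrier := {f | ∀ u a b τ : ℂ, u ≠ 0 → eval ![u ^ 4 * a, u ^ 6 * b, τ] f =
    eval ![a, b, u ^ 10 * τ] f}
  mul_mem' {f g} hf hg u a b τ hu := by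
    rw [map_mul, map_mul, hf u a b τ hu, hg u a b τ hu]
  add_mem' {f g} hf hg u a b τ hu := by
    rw [map_add, map_add, hf u a b τ hu, hg u a b τ hu]
  algebraMap_mem' c u a b τ hu := by
    simp

theorem mem_Inv (f : MvPolynomial (Fin 3) ℂ) : f ∈ Inv ↔ ∀ u a b τ : ℂ, u ≠ 0 →
    eval ![u ^ 4 * a, u ^ 6 * b, τ] f = eval ![a, b, u ^ 10 * τ] f := Iff.rfl

/-- The substitution `τ = 1`. -/
noncomputable def one : MvPolynomial (Fin 3) ℂ →ₐ[ℂ] MvPolynomial (Fin 2) ℂ :=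
  aeval ![X 0, X 1, 1]

theorem eval_one (f : MvPolynomial (Fin 3) ℂ) (a b : ℂ) :
    eval ![a, b] (one f) = eval ![a, b, 1] f := by
  have h : ((aeval ![a, b] : MvPolynomial (Fin 2) ℂ →ₐ[ℂ] ℂ)).comp one =
      (aeval ![a, b, 1] : MvPolynomial (Fin 3) ℂ →ₐ[ℂ] ℂ) := by
    ext i
    fin_cases i <;> simp [one]
  exact DFunLike.congr_fun h f

theorem one_inj : Function.Injective (one.comp Inv.val) := by
  rw [injective_iff_map_eq_zero]
  rintro ⟨f, hf⟩ h
  have h1 : one f = 0 := h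
  have h2 : ∀ a b τ : ℂ, τ ≠ 0 → eval ![a, b, τ] f = 0 := by
    intro a b τ hτ
    obtain ⟨u, hu⟩ := IsAlgClosed.exists_pow_nat_eq τ (n := 10) (by norm_num)
    have hu0 : u ≠ 0 := by
      rintro rfl
      apply hτ
      rw [← hu]
      norm_num
    have h3 := hf u a b 1 hu0
    rw [mul_one, hu, ← eval_one, h1, map_zero] at h3
    exact h3.symm
  have h3 : X 2 * f = 0 := by
    refine MvPolynomial.funext fun v => ?_
    have hv : v = ![v 0, v 1, v 2] := by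
      funext i
      fin_cases i <;> rfl
    rw [map_mul, eval_X, map_zero]
    by_cases h4 : v 2 = 0
    · rw [h4, zero_mul]
    · rw [hv, h2 _ _ _ h4, mul_zero]
  have h4 : f = 0 := by
    rcases mul_eq_zero.1 h3 with h5 | h5
    · exact absurd h5 (X_ne_zero 2)
    · exact h5
  exact Subtype.ext h4

theorem krull_le : ringKrullDim Inv ≤ 2 := by
  have h := M0n.krull_le (σ := Fin 2) (R := Inv) (one.comp Inv.val) one_inj
  simpa using h

theorem mem1 : (X 0 ^ 5 * X 2 ^ 2 : MvPolynomial (Fin 3) ℂ) ∈ Inv := by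
  intro u a b τ _
  simp
  ring

theorem mem2 : (X 1 ^ 5 * X 2 ^ 3 : MvPolynomial (Fin 3) ℂ) ∈ Inv := by
  intro u a b τ _
  simp
  ring

/-- `b = 0` -/
noncomputable def c1 : MvPolynomial (Fin 3) ℂ →ₐ[ℂ] MvPolynomial (Fin 3) ℂ :=
  aeval ![X 0, 0, X 2]

/-- `a = b = 0` -/
noncomputable def c2 : MvPolynomial (Fin 3) ℂ →ₐ[ℂ] MvPolynomial (Fin 3) ℂ :=
  aeval ![0, 0, X 2]

theorem c2_c1 (f : MvPolynomial (Fin 3) ℂ) : c2 (c1 f) = c2 f := by
  have h2 : c2.comp c1 = c2 := by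
    ext j
    fin_cases j <;> simp [c1, c2]
  exact DFunLike.congr_fun h2 f

theorem c1_mem2 : c1 (X 1 ^ 5 * X 2 ^ 3) = 0 := by
  simp [c1]

theorem c2_mem1 : c2 (X 0 ^ 5 * X 2 ^ 2) = 0 := by
  simp [c2]

theorem c1_mem1 : c1 (X 0 ^ 5 * X 2 ^ 2) ≠ 0 := by
  have h : c1 (X 0 ^ 5 * X 2 ^ 2) = X 0 ^ 5 * X 2 ^ 2 := by simp [c1]
  rw [h]
  exact mul_ne_zero (pow_ne_zero _ (X_ne_zero _)) (pow_ne_zero _ (X_ne_zero _))

theorem mem2_ne : (X 1 ^ 5 * X 2 ^ 3 : MvPolynomial (Fin 3) ℂ) ≠ 0 :=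
  mul_ne_zero (pow_ne_zero _ (X_ne_zero _)) (pow_ne_zero _ (X_ne_zero _))

/-- The chain of substitutions. -/
noncomputable def chain (i : Fin 3) : Inv →ₐ[ℂ] MvPolynomial (Fin 3) ℂ :=
  if i = 0 then Inv.val else if i = 1 then c1.comp Inv.val else c2.comp Inv.val

theorem chain0 (f : Inv) : chain 0 f = f.1 := rfl

theorem chain1 (f : Inv) : chain 1 f = c1 f.1 := by
  unfold chain
  rw [if_neg (by decide), if_pos rfl]
  rfl

theorem chain2 (f : Inv) : chain 2 f = c2 f.1 := by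
  unfold chain
  rw [if_neg (by decide), if_neg (by decide)]
  rfl

theorem le_krull : 2 ≤ ringKrullDim Inv := by
  have h1 : ∀ (i : Fin 2) (f : Inv), chain i.castSucc f = 0 → chain i.succ f = 0 := by
    refine Fin.forall_fin_two.2 ⟨fun f h => ?_, fun f h => ?_⟩
    · rw [Fin.castSucc_zero, chain0] at h
      rw [Fin.succ_zero_eq_one, chain1, h, map_zero]
    · have h' : chain 1 f = 0 := h
      have h'' : chain 2 f = 0 := by
        rw [chain1] at h'
        rw [chain2, ← c2_c1, h', map_zero]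
      exact h''
  have h2 : ∀ i : Fin 2, ∃ f : Inv, chain i.succ f = 0 ∧ chain i.castSucc f ≠ 0 := by
    refine Fin.forall_fin_two.2 ⟨⟨⟨_, mem2⟩, ?_, ?_⟩, ⟨⟨_, mem1⟩, ?_, ?_⟩⟩
    · rw [Fin.succ_zero_eq_one, chain1]
      exact c1_mem2
    · rw [Fin.castSucc_zero, chain0]
      exact mem2_ne
    · have h : chain 2 ⟨_, mem1⟩ = 0 := by
        rw [chain2]
        exact c2_mem1
      exact h
    · have h : chain 1 ⟨_, mem1⟩ ≠ 0 := by
        rw [chain1]
        exact c1_mem1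
      exact h
  exact M0n.le_krull (B := MvPolynomial (Fin 3) ℂ) Inv 2 chain h1 h2

/-- The Krull dimension of the ring of functions on `T^*[(𝔸² ∖ 0)/𝔾_m]` is `2`. -/
theorem krull_Inv : ringKrullDim Inv = 2 := le_antisymm krull_le le_krull

end Pool.Agent.MG.One
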