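import Pool.Agent.MG.W.EndC

/-!
# Weierstrass curves with one marked point: covectors and values of regular functions
-/

open CategoryTheory CategoryTheory.Limits AlgebraicGeometry TensorProduct

namespace Pool.Agent.MG.One

open Pool.Agent.MG.W Pool.Agent.MG.W.WCV

section

variable {B : Type} [CommRing B]

/-- The Weierstrass curve `y² = x³ + a x + b`. -/
def WZ (a b : B) : WD 0 B := ⟨a, b, Fin.elim0, Fin.elim0, fun i => i.elim0⟩

theorem WZ_eq (P : WD 0 B) : WZ P.a P.b = P := by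
  obtain ⟨a, b, x, y, e⟩ := P
  have hx : x = Fin.elim0 := funext fun i => i.elim0
  have hy : y = Fin.elim0 := funext fun i => i.elim0
  subst hx
  subst hy
  rfl

theorem WZ_ok {a b : B} (h6 : IsUnit (6 : B)) (h : Ideal.span {a, b} = ⊤) : (WZ a b).Ok :=
  ⟨h6, h, fun i => i.elim0, fun i => i.elim0⟩

/-- The covector data with coefficient `τ`. -/
def WT (a b τ : B) : WCov (WZ a b) :=
  ⟨-3 * b * τ, 2 * a * τ, Fin.elim0, Fin.elim0, by
    simp only [WZ, Finset.univ_eq_empty, Finset.sum_empty, add_zero]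
    ring⟩

/-- The covector with coefficient `τ`. -/
noncomputable def cov (h6 : IsUnit (6 : B)) (a b τ : B) : Cov 1 (Wei (WZ a b)) :=
  (wcv (WZ a b) h6 (WT a b τ)).choose

theorem cov_is (h6 : IsUnit (6 : B)) (a b τ : B) : IsWC (WT a b τ) (cov h6 a b τ) :=
  (wcv (WZ a b) h6 (WT a b τ)).choose_spec.1

theorem isUnit6_map {B' : Type} [CommRing B'] (φ : B →+* B') (h : IsUnit (6 : B)) :
    IsUnit (6 : B') := by
  have h' := h.map φ
  rwa [map_ofNat] at h'

/-- `x + ε y` -/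
def ep (x y : B) : Eps B := TrivSqZeroExt.inl x + TrivSqZeroExt.inr y

@[simp]
theorem fst_ep (x y : B) : (ep x y).fst = x := by simp [ep]

@[simp]
theorem snd_ep (x y : B) : (ep x y).snd = y := by simp [ep]

theorem fst_mul' (z w : Eps B) : (z * w).fst = z.fst * w.fst := TrivSqZeroExt.fst_mul z w

theorem snd_mul' (z w : Eps B) : (z * w).snd = z.fst * w.snd + z.snd * w.fst := by
  rw [TrivSqZeroExt.snd_mul]
  simp [mul_comm]

theorem span_ep {a b : B} (h : Ideal.span {a, b} = ⊤) (α β : B) :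
    Ideal.span {ep a α, ep b β} = ⊤ := by
  rw [Ideal.eq_top_iff_one, Ideal.mem_span_pair] at h ⊢
  obtain ⟨r, s, hrs⟩ := h
  refine ⟨ep r (-(r * α + s * β) * r), ep s (-(r * α + s * β) * s), ?_⟩
  refine TrivSqZeroExt.ext ?_ ?_
  · rw [TrivSqZeroExt.fst_add, fst_mul', fst_mul', fst_ep, fst_ep, fst_ep, fst_ep, hrs,
      TrivSqZeroExt.fst_one]
  · rw [TrivSqZeroExt.snd_add, snd_mul', snd_mul', fst_ep, fst_ep, fst_ep, fst_ep, snd_ep,
      snd_ep, snd_ep, snd_ep, TrivSqZeroExt.snd_one]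
    linear_combination (-(r * α + s * β)) * hrs

/-- The base change arrow of Weierstrass curves. -/
noncomputable def warr {B' : Type} [CommRing B'] (φ : B →+* B') {a b : B} {a' b' : B'}
    (ha : a' = φ a) (hb : b' = φ b) : Arrow φ (Wei (WZ a' b')) (Wei (WZ a b)) :=
  ⟨wmap φ (P := WZ a b) (P' := WZ a' b') ⟨ha, hb, fun i => i.elim0, fun i => i.elim0⟩,
    t_WBC φ ha hb, fun i => wmap_sec φ _ i⟩

theorem warr_f {B' : Type} [CommRing B'] (φ : B →+* B') {a b : B} {a' b' : B'}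
    (ha : a' = φ a) (hb : b' = φ b) : (warr φ ha hb).f = WX.map φ ha hb := rfl

theorem warr_comp {B' B'' : Type} [CommRing B'] [CommRing B''] (φ : B →+* B') (ψ : B' →+* B'')
    {χ : B →+* B''} (hχ : ψ.comp φ = χ) {a b : B} {a' b' : B'} {a'' b'' : B''}
    (ha : a' = φ a) (hb : b' = φ b) (ha' : a'' = ψ a') (hb' : b'' = ψ b') (hc : a'' = χ a)
    (hd : b'' = χ b) : (warr ψ ha' hb').f ≫ (warr φ ha hb).f = (warr χ hc hd).f :=
  map_comp φ ψ ha hb ha' hb' hχ hc hd

/-- The deformation `(a + ε α, b + ε β)`. -/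
noncomputable def dW (h6 : IsUnit (6 : B)) {a b : B} (h : Ideal.span {a, b} = ⊤) (α β : B) :
    Defo 1 (Wei (WZ a b)) :=
  ⟨Wei (WZ (ep a α) (ep b β)),
    wst.1 _ (WZ_ok (isUnit6_map (algebraMap B (Eps B)) h6) (span_ep h α β)),
    warr (eps0 B) (fst_ep a α).symm (fst_ep b β).symm⟩

/-- Every deformation is isomorphic to one of the `dW`. -/
theorem exists_dW (h6 : IsUnit (6 : B)) {a b : B} (h : Ideal.span {a, b} = ⊤)
    (d : Defo 1 (Wei (WZ a b))) : ∃ (α β : B) (f : Arrow (RingHom.id (Eps B)) d.y (dW h6 h α β).y),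
      d.r.f ≫ f.f = (dW h6 h α β).r.f := by
  obtain ⟨P', hb, f, hf⟩ := we (sqEps B) (WZ a b) h6 d.thk
  have hb' : WD.Bc (eps0 B) P' (WZ a b) := hb
  refine ⟨P'.a.snd, P'.b.snd, ?_⟩
  have ea : ep a P'.a.snd = P'.a := by
    refine TrivSqZeroExt.ext ?_ ?_
    · rw [fst_ep]
      exact hb'.a
    · rw [snd_ep]
  have eb : ep b P'.b.snd = P'.b := by
    refine TrivSqZeroExt.ext ?_ ?_
    · rw [fst_ep]
      exact hb'.b
    · rw [snd_ep]
  have eP : WZ (ep a P'.a.snd) (ep b P'.b.snd) = P' := by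
    rw [ea, eb, WZ_eq]
  have key : ∀ (Q : WD 0 (Eps B)) (_ : Q = P') (hQ : WD.Bc (eps0 B) Q (WZ a b)),
      ∃ g : Arrow (RingHom.id (Eps B)) d.y (Wei Q), d.r.f ≫ g.f = wmap (eps0 B) hQ := by
    intro Q hQ hb
    subst hQ
    exact ⟨f, hf⟩
  exact key _ eP ⟨(fst_ep _ _).symm, (fst_ep _ _).symm, fun i => i.elim0, fun i => i.elim0⟩

theorem l_scale (h6 : IsUnit (6 : B)) {a b : B} (h : Ideal.span {a, b} = ⊤)
    (l : Cov 1 (Wei (WZ a b))) (c α β : B) :
    l.l (dW h6 h (c * α) (c * β)) = c * l.l (dW h6 h α β) := by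
  have e : ∀ x y : B, ep x (c * y) = epsScale c (ep x y) := by
    intro x y
    refine TrivSqZeroExt.ext ?_ ?_
    · simp
    · simp
  refine l.scale c (dW h6 h α β) (dW h6 h (c * α) (c * β)) (warr (epsScale c) (e _ _) (e _ _)) ?_
  refine warr_comp (epsScale c) (eps0 B) ?_ (e _ _) (e _ _) (fst_ep _ _).symm (fst_ep _ _).symm
    (fst_ep _ _).symm (fst_ep _ _).symm
  refine RingHom.ext fun z => ?_
  simp

theorem l_add (h6 : IsUnit (6 : B)) {a b : B} (h : Ideal.span {a, b} = ⊤)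
    (l : Cov 1 (Wei (WZ a b))) (α β α' β' : B) :
    l.l (dW h6 h (α + α') (β + β')) = l.l (dW h6 h α β) + l.l (dW h6 h α' β') := by
  let e2 : B → B → B → Eps2 B := fun x y z => TrivSqZeroExt.inl x + TrivSqZeroExt.inr (y, z)
  have hf : ∀ x y z, (e2 x y z).fst = x := fun x y z => by simp [e2]
  have hs : ∀ x y z, (e2 x y z).snd = (y, z) := fun x y z => by simp [e2]
  have h6' : IsUnit (6 : Eps2 B) := isUnit6_map (algebraMap B (Eps2 B)) h6
  have hm1 : ∀ z w : Eps2 B, (z * w).fst = z.fst * w.fst := fun z w => TrivSqZeroExt.fst_mul z w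
  have hm2 : ∀ z w : Eps2 B, (z * w).snd = z.fst • w.snd + w.fst • z.snd := by
    intro z w
    rw [TrivSqZeroExt.snd_mul, op_smul_eq_smul]
  have hab : Ideal.span {e2 a α α', e2 b β β'} = ⊤ := by
    have h' := h
    rw [Ideal.eq_top_iff_one, Ideal.mem_span_pair] at h' ⊢
    obtain ⟨r, s, hrs⟩ := h'
    refine ⟨e2 r (-(r * α + s * β) * r) (-(r * α' + s * β') * r),
      e2 s (-(r * α + s * β) * s) (-(r * α' + s * β') * s), ?_⟩
    refine TrivSqZeroExt.ext ?_ ?_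
    · rw [TrivSqZeroExt.fst_add, hm1, hm1, hf, hf, hf, hf, hrs, TrivSqZeroExt.fst_one]
    · rw [TrivSqZeroExt.snd_add, hm2, hm2, hf, hf, hf, hf, hs, hs, hs, hs,
        TrivSqZeroExt.snd_one]
      refine Prod.ext ?_ ?_
      · simp only [Prod.fst_add, Prod.smul_fst, smul_eq_mul, Prod.fst_zero]
        linear_combination (-(r * α + s * β)) * hrs
      · simp only [Prod.snd_add, Prod.smul_snd, smul_eq_mul, Prod.snd_zero]
        linear_combination (-(r * α' + s * β')) * hrs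
  have hz : IsStable 1 (Wei (WZ (e2 a α α') (e2 b β β'))) := wst.1 _ (WZ_ok h6' hab)
  have ep10 : ∀ x y z : B, ep x y = epsPair (1 : B) 0 (e2 x y z) := by
    intro x y z
    refine TrivSqZeroExt.ext ?_ ?_
    · simp [hf]
    · simp [hs]
  have ep01 : ∀ x y z : B, ep x z = epsPair (0 : B) 1 (e2 x y z) := by
    intro x y z
    refine TrivSqZeroExt.ext ?_ ?_
    · simp [hf]
    · simp [hs]
  have ep11 : ∀ x y z : B, ep x (y + z) = epsPair (1 : B) 1 (e2 x y z) := by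
    intro x y z
    refine TrivSqZeroExt.ext ?_ ?_
    · simp [hf]
    · simp [hs]
  refine l.add (Wei (WZ (e2 a α α') (e2 b β β'))) hz
    (warr (eps20 B) (hf _ _ _).symm (hf _ _ _).symm) (dW h6 h α β) (dW h6 h α' β')
    (dW h6 h (α + α') (β + β')) (warr (epsPair (1 : B) 0) (ep10 _ _ _) (ep10 _ _ _))
    (warr (epsPair (0 : B) 1) (ep01 _ _ _) (ep01 _ _ _))
    (warr (epsPair (1 : B) 1) (ep11 _ _ _) (ep11 _ _ _))
    ?_ ?_ ?_
  · refine warr_comp (epsPair (1 : B) 0) (eps0 B) ?_ (ep10 _ _ _) (ep10 _ _ _) (fst_ep _ _).symm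
      (fst_ep _ _).symm (hf _ _ _).symm (hf _ _ _).symm
    refine RingHom.ext fun z => ?_
    simp
  · refine warr_comp (epsPair (0 : B) 1) (eps0 B) ?_ (ep01 _ _ _) (ep01 _ _ _) (fst_ep _ _).symm
      (fst_ep _ _).symm (hf _ _ _).symm (hf _ _ _).symm
    refine RingHom.ext fun z => ?_
    simp
  · refine warr_comp (epsPair (1 : B) 1) (eps0 B) ?_ (ep11 _ _ _) (ep11 _ _ _) (fst_ep _ _).symm
      (fst_ep _ _).symm (hf _ _ _).symm (hf _ _ _).symm
    refine RingHom.ext fun z => ?_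
    simp

theorem sc_one {a b : B} (ha : a = 1 ^ 4 * a) (hb : b = 1 ^ 6 * b) :
    WX.sc (u := (1 : B)) (v := 1) (mul_one 1) ha hb = 𝟙 _ := by
  refine WX.ext' ?_ ?_
  · rw [WX.in1_sc, Category.comp_id]
    have e : sc1 (mul_one (1 : B)) ha hb = RingHom.id _ := by
      refine hom1_ext (fun c => ?_) ?_ ?_
      · rw [sc1_b]
        rfl
      · rw [sc1_x, map_one, one_pow, one_mul]
        rfl
      · rw [sc1_y, map_one, one_pow, one_mul]
        rfl
    rw [e, spMap_id, Category.id_comp]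
  · rw [WX.in2_sc, Category.comp_id]
    have e : sc2 ha hb = RingHom.id _ := by
      refine hom2_ext (fun c => ?_) ?_ ?_
      · rw [sc2_b]
        rfl
      · rw [sc2_z, map_one, one_mul]
        rfl
      · rw [sc2_t]
        rfl
    rw [e, spMap_id, Category.id_comp]

theorem pow_ep (k : ℕ) : (ep (1 : B) 1) ^ k = ep 1 (k : B) := by
  induction k with
  | zero =>
    refine TrivSqZeroExt.ext ?_ ?_
    · rw [pow_zero, fst_ep, TrivSqZeroExt.fst_one]
    · rw [pow_zero, snd_ep, TrivSqZeroExt.snd_one, Nat.cast_zero]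
  | succ k ih =>
    rw [pow_succ, ih]
    refine TrivSqZeroExt.ext ?_ ?_
    · rw [fst_mul', fst_ep, fst_ep, fst_ep, one_mul]
    · rw [snd_mul', fst_ep, fst_ep, snd_ep, snd_ep, snd_ep, Nat.cast_succ]
      ring

/-- The scaling arrow. -/
noncomputable def scarr {a b a' b' u v : B} (huv : u * v = 1) (ha : a' = u ^ 4 * a)
    (hb : b' = u ^ 6 * b) : Arrow (RingHom.id B) (Wei (WZ a' b')) (Wei (WZ a b)) where
  f := WX.sc huv ha hb
  cart := by
    have hi : IsIso (WX.sc huv ha hb) := t_WSC.1 huv ha hb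
    rw [spMap_id]
    refine @IsPullback.of_horiz_isIso _ _ _ _ _ _ _ _ _ _ hi _ ⟨?_⟩
    rw [Category.comp_id]
    exact WX.sc_pr huv ha hb
  sec i := by
    rw [spMap_id, Category.id_comp]
    exact t_WSC.2.1 huv (WZ a b) (WZ a' b') ⟨ha, hb, fun i => i.elim0, fun i => i.elim0⟩ i

theorem l_euler (h6 : IsUnit (6 : B)) {a b : B} (h : Ideal.span {a, b} = ⊤)
    (l : Cov 1 (Wei (WZ a b))) : l.l (dW h6 h (4 * a) (6 * b)) = 0 := by
  -- `u = 1 + ε`
  have huv : ep (1 : B) 1 * ep 1 (-1) = 1 := by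
    refine TrivSqZeroExt.ext ?_ ?_
    · rw [fst_mul', fst_ep, fst_ep, TrivSqZeroExt.fst_one, one_mul]
    · rw [snd_mul', fst_ep, fst_ep, snd_ep, snd_ep, TrivSqZeroExt.snd_one]
      ring
  have ha : ep a (4 * a) = ep (1 : B) 1 ^ 4 * ep a 0 := by
    rw [pow_ep]
    refine TrivSqZeroExt.ext ?_ ?_
    · rw [fst_mul', fst_ep, fst_ep, fst_ep, one_mul]
    · rw [snd_mul', fst_ep, fst_ep, snd_ep, snd_ep, snd_ep]
      push_cast
      ring
  have hb : ep b (6 * b) = ep (1 : B) 1 ^ 6 * ep b 0 := by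
    rw [pow_ep]
    refine TrivSqZeroExt.ext ?_ ?_
    · rw [fst_mul', fst_ep, fst_ep, fst_ep, one_mul]
    · rw [snd_mul', fst_ep, fst_ep, snd_ep, snd_ep, snd_ep]
      push_cast
      ring
  have h1 := t_WSC.2.2 (eps0 B) huv ha hb (c := a) (d := b) (c' := a) (d' := b) (w := 1) (s := 1)
      (mul_one 1) (by ring) (by ring) (fst_ep a 0).symm (fst_ep b 0).symm
      (fst_ep a (4 * a)).symm (fst_ep b (6 * b)).symm (fst_ep 1 1).symm
  rw [sc_one, Category.id_comp] at h1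
  have hf : (dW h6 h (4 * a) (6 * b)).r.f ≫ (scarr huv ha hb).f = (dW h6 h 0 0).r.f := h1.symm
  have h2 := l_scale h6 h l 0 0 0
  rw [zero_mul, zero_mul] at h2
  rw [l.iso (dW h6 h (4 * a) (6 * b)) (dW h6 h 0 0) (scarr huv ha hb) hf]
  exact h2

/-- The identity arrow. -/
noncomputable def idArr {n : ℕ} (y : Fam n B) : Arrow (RingHom.id B) y y where
  f := 𝟙 _
  cart := by
    rw [spMap_id]
    exact IsPullback.id_horiz _
  sec i := by
    rw [spMap_id, Category.comp_id, Category.id_comp]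

theorem wcls_dW (h6 : IsUnit (6 : B)) {a b : B} (h : Ideal.span {a, b} = ⊤) (α β : B) :
    WCls (dW h6 h α β) α β Fin.elim0 Fin.elim0 :=
  ⟨WZ (ep a α) (ep b β),
      ⟨(fst_ep a α).symm, (fst_ep b β).symm, fun i => i.elim0, fun i => i.elim0⟩,
      snd_ep a α, snd_ep b β, fun i => i.elim0, fun i => i.elim0, idArr _, Category.comp_id _⟩

/-- Every covector is one of the `cov`. -/
theorem cov_ex (h6 : IsUnit (6 : B)) {a b : B} (h : Ideal.span {a, b} = ⊤)
    (l : Cov 1 (Wei (WZ a b))) : ∃ τ : B, l = cov h6 a b τ := by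
  obtain ⟨A, hA⟩ : ∃ A, A = l.l (dW h6 h 1 0) := ⟨_, rfl⟩
  obtain ⟨D, hD⟩ : ∃ D, D = l.l (dW h6 h 0 1) := ⟨_, rfl⟩
  have hlin : ∀ α β, l.l (dW h6 h α β) = α * A + β * D := by
    intro α β
    have h1 := l_add h6 h l (α * 1) (α * 0) (β * 0) (β * 1)
    rw [l_scale, l_scale, ← hA, ← hD] at h1
    rw [← h1]
    congr 2 <;> ring
  have he := l_euler h6 h l
  rw [hlin] at he
  obtain ⟨i6, hi⟩ := h6.exists_right_inv
  have h' := h
  rw [Ideal.eq_top_iff_one, Ideal.mem_span_pair] at h'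
  obtain ⟨r, s, hrs⟩ := h'
  have he2 : 2 * a * A + 3 * b * D = 0 := by
    have h3 : (6 * i6) * (2 * a * A + 3 * b * D) = (3 * i6) * (4 * a * A + 6 * b * D) := by ring
    rw [hi, one_mul, he, mul_zero] at h3
    exact h3
  refine ⟨3 * i6 * r * D - 2 * i6 * s * A, Cov_ext _ _ fun d => ?_⟩
  obtain ⟨α, β, f, hf⟩ := exists_dW h6 h d
  rw [l.iso _ _ f hf, (cov h6 a b _).iso _ _ f hf, hlin,
    cov_is h6 a b _ (dW h6 h α β) α β Fin.elim0 Fin.elim0 (wcls_dW h6 h α β)]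
  simp only [WT, Finset.univ_eq_empty, Finset.sum_empty, add_zero]
  linear_combination (3 * i6 * r * α + 2 * i6 * s * β) * he2 +
    (-6 * i6 * (α * A + β * D)) * hrs + (-(α * A + β * D)) * hi

end

end Pool.Agent.MG.One
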