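import Pool.Agent.MG.One.Val

/-!
# The functions on `T^*M̄_{1,1}`
-/

open CategoryTheory CategoryTheory.Limits AlgebraicGeometry TensorProduct

namespace Pool.Agent.MG.One

open Pool.Agent.MG.W Pool.Agent.MG.W.WCV

/-- The polynomial of a regular function. -/
noncomputable def poly (F : Reg 1 1) : R3 := (exists_poly F).choose

theorem poly_spec (F : Reg 1 1) {B : Type} [CommRing B] [Algebra ℂ B] (a b τ : B)
    (hs : IsStable 1 (Wei (WZ a b))) (h : Ideal.span {a, b} = ⊤) :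
    F.F B (Wei (WZ a b)) hs (cov six a b τ) = MvPolynomial.aeval ![a, b, τ] (poly F) :=
  (exists_poly F).choose_spec B a b τ hs h

theorem span_iff {a b : ℂ} (h : a ≠ 0 ∨ b ≠ 0) : Ideal.span {a, b} = ⊤ :=
  span_of_unit (h.imp (IsUnit.mk0 a) (IsUnit.mk0 b))

theorem poly_mem (F : Reg 1 1) : poly F ∈ Inv := by
  -- at the points with `(a, b) ≠ 0`
  have key : ∀ u a b τ : ℂ, u ≠ 0 → (a ≠ 0 ∨ b ≠ 0) →
      MvPolynomial.eval ![u ^ 4 * a, u ^ 6 * b, τ] (poly F) =
        MvPolynomial.eval ![a, b, u ^ 10 * τ] (poly F) := by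
    intro u a b τ hu hab
    have h1 := span_iff hab
    have h2 : Ideal.span {u ^ 4 * a, u ^ 6 * b} = ⊤ :=
      span_iff (hab.imp (mul_ne_zero (pow_ne_zero 4 hu)) (mul_ne_zero (pow_ne_zero 6 hu)))
    have h3 := scale_val F u a b τ (IsUnit.mk0 u hu) (stable_of h1) (stable_of h2)
    rw [poly_spec F _ _ _ _ h2, poly_spec F _ _ _ _ h1] at h3
    exact h3
  intro u a b τ hu
  by_cases hab : a ≠ 0 ∨ b ≠ 0
  · exact key u a b τ hu hab
  push Not at hab
  obtain ⟨rfl, rfl⟩ := hab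
  -- a polynomial in one variable
  let g : Polynomial ℂ :=
    MvPolynomial.aeval ![Polynomial.C (u ^ 4) * Polynomial.X, 0, Polynomial.C τ] (poly F) -
      MvPolynomial.aeval ![Polynomial.X, 0, Polynomial.C (u ^ 10 * τ)] (poly F)
  have hg : ∀ a : ℂ, g.eval a = MvPolynomial.eval ![u ^ 4 * a, u ^ 6 * 0, τ] (poly F) -
      MvPolynomial.eval ![a, 0, u ^ 10 * τ] (poly F) := by
    intro a
    have e1 : ((Polynomial.aeval a : Polynomial ℂ →ₐ[ℂ] ℂ)).comp
        (MvPolynomial.aeval ![Polynomial.C (u ^ 4) * Polynomial.X, 0, Polynomial.C τ] :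
          R3 →ₐ[ℂ] Polynomial ℂ) = MvPolynomial.aeval ![u ^ 4 * a, u ^ 6 * 0, τ] := by
      ext i
      fin_cases i <;> simp
    have e2 : ((Polynomial.aeval a : Polynomial ℂ →ₐ[ℂ] ℂ)).comp
        (MvPolynomial.aeval ![Polynomial.X, 0, Polynomial.C (u ^ 10 * τ)] :
          R3 →ₐ[ℂ] Polynomial ℂ) = MvPolynomial.aeval ![a, 0, u ^ 10 * τ] := by
      ext i
      fin_cases i <;> simp
    have h1 := DFunLike.congr_fun e1 (poly F)
    have h2 := DFunLike.congr_fun e2 (poly F)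
    change Polynomial.eval a _ = _
    rw [Polynomial.eval_sub]
    exact congrArg₂ (fun x y => x - y) h1 h2
  have h0 : Polynomial.X * g = 0 := by
    refine Polynomial.funext fun a => ?_
    rw [Polynomial.eval_mul, Polynomial.eval_X, Polynomial.eval_zero, hg]
    by_cases ha : a = 0
    · rw [ha, zero_mul]
    · rw [key u a 0 τ hu (Or.inl ha), sub_self, mul_zero]
  have h1 : g = 0 := by
    rcases mul_eq_zero.1 h0 with h | h
    · exact absurd h Polynomial.X_ne_zero
    · exact h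
  have h2 := hg 0
  rw [h1, Polynomial.eval_zero] at h2
  exact (sub_eq_zero.1 h2.symm)

section

variable {k : Type} [Field k] [IsAlgClosed k] [Algebra ℂ k]

/-- The values at smooth curves. -/
theorem smooth_val (C : Fam 1 k) (hC : IsStable 1 C) (hs : SmoothOfRelativeDimension 1 C.π)
    (l : Cov 1 C) : ∃ a b τ : k, 4 * a ^ 3 + 27 * b ^ 2 ≠ 0 ∧
      ∀ F : Reg 1 1, F.F k C hC l = MvPolynomial.aeval ![a, b, τ] (poly F) := by
  have : CharZero k := charZero_of_injective_algebraMap (algebraMap ℂ k).injective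
  obtain ⟨P, hD, f, -⟩ := t_W0 C hC hs
  have hP := WZ_eq P
  revert f hD
  rw [← hP]
  intro hD f
  have hD' : 4 * P.a ^ 3 + 27 * P.b ^ 2 ≠ 0 := hD
  have hsp : Ideal.span {P.a, P.b} = ⊤ := by
    refine span_of_unit ?_
    by_contra h
    push Not at h
    rw [isUnit_iff_ne_zero, not_not, isUnit_iff_ne_zero, not_not] at h
    apply hD'
    rw [h.1, h.2]
    ring
  obtain ⟨τ, hτ⟩ := cov_ex six hsp (covPre f l)
  refine ⟨P.a, P.b, τ, hD', fun F => ?_⟩
  rw [val_transport F f (stable_of hsp) hC l, hτ, poly_spec F _ _ _ _ hsp]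

end

end Pool.Agent.MG.One

namespace Pool.Agent.MG.One

open Pool.Agent.MG.W Pool.Agent.MG.W.WCV

/-- `(C, l)` is the Weierstrass curve `y² = x³ + a x + b` with the covector `τ (2 a db - 3 b da)`,
as far as regular functions can see. -/
def At {k : Type} [Field k] [Algebra ℂ k] (Φ : Std.Reg 1 1 → Inv) (C : Fam 1 k)
    (hC : Std.IsStable 1 C) (l : Std.Cov 1 C) (a b τ : k) : Prop :=
  ∀ F, F.F k C hC l = MvPolynomial.aeval ![a, b, τ] (Φ F).1

/-- The regular functions on `T^*M̄_{1,1}` as invariant polynomials. -/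
theorem main : ∃ Φ : Std.Reg 1 1 → Inv, ∀ (k : Type) [Field k] [IsAlgClosed k] [Algebra ℂ k],
    (∀ (C : Fam 1 k) (hC : Std.IsStable 1 C), Smooth C.π → ∀ l : Std.Cov 1 C,
      ∃ a b τ : k, 4 * a ^ 3 + 27 * b ^ 2 ≠ 0 ∧ At Φ C hC l a b τ) ∧
    (∀ a b τ : k, 4 * a ^ 3 + 27 * b ^ 2 ≠ 0 → ∃ (C : Fam 1 k) (hC : Std.IsStable 1 C)
      (l : Std.Cov 1 C), Smooth C.π ∧ At Φ C hC l a b τ) := by
  refine ⟨fun F => ⟨poly (Std.Reg.to F), poly_mem _⟩, fun k _ _ _ => ⟨?_, ?_⟩⟩
  · intro C hC hs l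
    have hC' := (Std.stable_iff 1 C).1 hC
    have hs1 : SmoothOfRelativeDimension 1 C.π :=
      SmNod.smoothOfRelativeDimension_one C.π (CST.stableCurve hC').nodal
    obtain ⟨a, b, τ, hD, h⟩ := smooth_val C hC' hs1 (Std.Cov.to l)
    exact ⟨a, b, τ, hD, fun F => h (Std.Reg.to F)⟩
  · intro a b τ hD
    have : CharZero k := charZero_of_injective_algebraMap (algebraMap ℂ k).injective
    have hsp : Ideal.span {a, b} = ⊤ := by
      refine span_of_unit ?_
      by_contra h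
      push Not at h
      rw [isUnit_iff_ne_zero, not_not, isUnit_iff_ne_zero, not_not] at h
      apply hD
      rw [h.1, h.2]
      ring
    have hst := stable_of hsp
    have hsm : SmoothOfRelativeDimension 1 (Wei (WZ a b)).π := wei_smooth (WZ a b) hD
    refine ⟨Wei (WZ a b), (Std.stable_iff 1 _).2 hst, Std.Cov.of (cov six a b τ), ?_, fun F => ?_⟩
    · exact SmoothOfRelativeDimension.smooth 1 _
    · exact poly_spec (Std.Reg.to F) a b τ hst hsp

end Pool.Agent.MG.One
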