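import Pool.Agent.MG.One.Cov
import Pool.Agent.MG.One.Alg
import Pool.Agent.MG.StdIff

/-!
# The values of regular functions on `T^*M̄_{1,1}` at Weierstrass curves
-/

open CategoryTheory CategoryTheory.Limits AlgebraicGeometry TensorProduct

namespace Pool.Agent.MG.One

open Pool.Agent.MG.W Pool.Agent.MG.W.WCV

section

variable {B : Type} [CommRing B] [Algebra ℂ B]

theorem six : IsUnit (6 : B) :=
  isUnit6_map (algebraMap ℂ B) (IsUnit.mk0 6 (by norm_num))

/-- Change of the base ring. -/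
theorem nat_val (F : Reg 1 1) {B' : Type} [CommRing B'] [Algebra ℂ B'] (φ : B →ₐ[ℂ] B')
    {a b τ : B} {a' b' τ' : B'} (ha : a' = φ a) (hb : b' = φ b) (hτ : τ' = φ τ)
    (hs : IsStable 1 (Wei (WZ a b))) (hs' : IsStable 1 (Wei (WZ a' b'))) :
    F.F B' (Wei (WZ a' b')) hs' (cov six a' b' τ') =
      φ (F.F B (Wei (WZ a b)) hs (cov six a b τ)) := by
  obtain ⟨f, -, hf⟩ := wna.1 (φ : B →+* B') (WZ a b) (WZ a' b')
    ⟨ha, hb, fun i => i.elim0, fun i => i.elim0⟩ (WT a b τ) (WT a' b' τ') (cov six a b τ)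
    (cov six a' b' τ') six
    (by
      change -3 * b' * τ' = φ (-3 * b * τ)
      rw [hb, hτ, map_mul, map_mul, map_neg, map_ofNat])
    (by
      change 2 * a' * τ' = φ (2 * a * τ)
      rw [ha, hτ, map_mul, map_mul, map_ofNat])
    (fun i => i.elim0) (fun i => i.elim0) (cov_is _ _ _ _) (cov_is _ _ _ _)
  exact F.nat B B' φ _ _ hs hs' f _ _ hf

/-- Scaling. -/
theorem scale_val (F : Reg 1 1) (u a b τ : B) (hu : IsUnit u)
    (hs : IsStable 1 (Wei (WZ a b))) (hs' : IsStable 1 (Wei (WZ (u ^ 4 * a) (u ^ 6 * b)))) :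
    F.F B (Wei (WZ (u ^ 4 * a) (u ^ 6 * b))) hs' (cov six (u ^ 4 * a) (u ^ 6 * b) τ) =
      F.F B (Wei (WZ a b)) hs (cov six a b (u ^ 10 * τ)) := by
  obtain ⟨f, hf⟩ := wna.2 u (WZ a b) (WZ (u ^ 4 * a) (u ^ 6 * b)) (WT a b (u ^ 10 * τ))
    (WT (u ^ 4 * a) (u ^ 6 * b) τ) (cov six a b (u ^ 10 * τ))
    (cov six (u ^ 4 * a) (u ^ 6 * b) τ) six hu ⟨rfl, rfl, fun i => i.elim0, fun i => i.elim0⟩
    (by
      change u ^ 4 * (-3 * (u ^ 6 * b) * τ) = -3 * b * (u ^ 10 * τ)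
      ring)
    (by
      change u ^ 6 * (2 * (u ^ 4 * a) * τ) = 2 * a * (u ^ 10 * τ)
      ring)
    (fun i => i.elim0) (fun i => i.elim0) (cov_is _ _ _ _) (cov_is _ _ _ _)
  exact F.nat B B (AlgHom.id ℂ B) _ _ hs hs' f _ _ hf

end

/-- The polynomial ring in `a`, `b`, `τ`. -/
abbrev R3 : Type := MvPolynomial (Fin 3) ℂ

/-- Its localisation. -/
abbrev L3 (i : Fin 3) : Type := Localization.Away (MvPolynomial.X i : R3)

/-- The generators. -/
noncomputable def gen (i j : Fin 3) : L3 i := algebraMap R3 (L3 i) (MvPolynomial.X j)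

theorem gen_unit (i : Fin 3) : IsUnit (gen i i) :=
  IsLocalization.Away.algebraMap_isUnit (S := L3 i) (MvPolynomial.X i : R3)

theorem span_of_unit {B : Type} [CommRing B] {a b : B} (h : IsUnit a ∨ IsUnit b) :
    Ideal.span {a, b} = ⊤ := by
  rcases h with h | h
  · exact Ideal.eq_top_of_isUnit_mem _ (Ideal.subset_span (by simp)) h
  · exact Ideal.eq_top_of_isUnit_mem _ (Ideal.subset_span (by simp)) h

theorem stable_of {B : Type} [CommRing B] [Algebra ℂ B] {a b : B} (h : Ideal.span {a, b} = ⊤) :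
    IsStable 1 (Wei (WZ a b)) :=
  wst.1 _ (WZ_ok six h)

/-- The universal value on the part where `a` (`i = 0`) or `b` (`i = 1`) is invertible. -/
noncomputable def uval (F : Reg 1 1) (i : Fin 3) (h : IsUnit (gen i 0) ∨ IsUnit (gen i 1)) : L3 i :=
  F.F (L3 i) (Wei (WZ (gen i 0) (gen i 1))) (stable_of (span_of_unit h))
    (cov six (gen i 0) (gen i 1) (gen i 2))

/-- Evaluation. -/
noncomputable def ev {B : Type} [CommRing B] [Algebra ℂ B] (v : Fin 3 → B) (i : Fin 3)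
    (h : IsUnit (v i)) : L3 i →ₐ[ℂ] B :=
  IsLocalization.liftAlgHom (M := Submonoid.powers (MvPolynomial.X i : R3))
    (f := (MvPolynomial.aeval v : R3 →ₐ[ℂ] B)) (by
      rintro ⟨_, n, rfl⟩
      simp only [map_pow, MvPolynomial.aeval_X]
      exact h.pow n)

theorem ev_alg {B : Type} [CommRing B] [Algebra ℂ B] (v : Fin 3 → B) (i : Fin 3)
    (h : IsUnit (v i)) (p : R3) : ev v i h (algebraMap R3 (L3 i) p) = MvPolynomial.aeval v p := by
  unfold ev
  rw [IsLocalization.liftAlgHom_apply, IsLocalization.lift_eq]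
  rfl

theorem uval_ev (F : Reg 1 1) (i : Fin 3) (h : IsUnit (gen i 0) ∨ IsUnit (gen i 1))
    {B : Type} [CommRing B] [Algebra ℂ B] (a b τ : B) (hi : IsUnit ((![a, b, τ] : Fin 3 → B) i))
    (hs : IsStable 1 (Wei (WZ a b))) :
    F.F B (Wei (WZ a b)) hs (cov six a b τ) = ev ![a, b, τ] i hi (uval F i h) := by
  refine nat_val F (ev ![a, b, τ] i hi) ?_ ?_ ?_ _ hs
  · rw [gen, ev_alg, MvPolynomial.aeval_X]
    rfl
  · rw [gen, ev_alg, MvPolynomial.aeval_X]
    rfl
  · rw [gen, ev_alg, MvPolynomial.aeval_X]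
    rfl

/-- Two universal values which agree at the points come from one polynomial. -/
theorem glue (f₀ : L3 0) (f₁ : L3 1) (h : ∀ (a b τ : ℂ) (ha : a ≠ 0) (hb : b ≠ 0),
    ev ![a, b, τ] 0 (IsUnit.mk0 a ha) f₀ = ev ![a, b, τ] 1 (IsUnit.mk0 b hb) f₁) :
    ∃ f : R3, f₀ = algebraMap R3 (L3 0) f ∧ f₁ = algebraMap R3 (L3 1) f := by
  obtain ⟨n, p, hp⟩ := IsLocalization.Away.surj (MvPolynomial.X 0 : R3) f₀
  obtain ⟨m, q, hq⟩ := IsLocalization.Away.surj (MvPolynomial.X 1 : R3) f₁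
  have key : p * MvPolynomial.X 1 ^ m = q * MvPolynomial.X 0 ^ n := by
    have h1 : MvPolynomial.X 0 * MvPolynomial.X 1 * (p * MvPolynomial.X 1 ^ m) =
        MvPolynomial.X 0 * MvPolynomial.X 1 * (q * MvPolynomial.X 0 ^ n) := by
      refine MvPolynomial.funext fun v => ?_
      have hv : v = ![v 0, v 1, v 2] := by
        funext i
        fin_cases i <;> rfl
      simp only [map_mul, map_pow, MvPolynomial.eval_X]
      by_cases ha : v 0 = 0
      · rw [ha]
        ring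
      by_cases hb : v 1 = 0
      · rw [hb]
        ring
      have h2 := h (v 0) (v 1) (v 2) ha hb
      have h3 := congrArg (ev ![v 0, v 1, v 2] 0 (IsUnit.mk0 _ ha)) hp
      have h4 := congrArg (ev ![v 0, v 1, v 2] 1 (IsUnit.mk0 _ hb)) hq
      rw [map_mul, ← map_pow, ev_alg, ev_alg] at h3 h4
      rw [map_pow, MvPolynomial.aeval_X] at h3 h4
      have e1 : MvPolynomial.eval v p = (MvPolynomial.aeval ![v 0, v 1, v 2] : R3 →ₐ[ℂ] ℂ) p := by
        rw [← hv]
        rfl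
      have e2 : MvPolynomial.eval v q = (MvPolynomial.aeval ![v 0, v 1, v 2] : R3 →ₐ[ℂ] ℂ) q := by
        rw [← hv]
        rfl
      rw [e1, e2, ← h3, ← h4, h2]
      change v 0 * v 1 * (_ * v 0 ^ n * v 1 ^ m) = v 0 * v 1 * (_ * v 1 ^ m * v 0 ^ n)
      ring
    refine mul_left_cancel₀ ?_ h1
    exact mul_ne_zero (MvPolynomial.X_ne_zero _) (MvPolynomial.X_ne_zero _)
  have hdvd : (MvPolynomial.X 0 : R3) ^ n ∣ p := by
    have hpr : Prime (MvPolynomial.X 0 : R3) := MvPolynomial.X_prime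
    have h1 : (MvPolynomial.X 0 : R3) ^ n ∣ p * MvPolynomial.X 1 ^ m := ⟨q, by rw [key]; ring⟩
    refine hpr.pow_dvd_of_dvd_mul_right n ?_ h1
    intro h2
    have h3 := hpr.dvd_of_dvd_pow h2
    have h4 := map_dvd (MvPolynomial.aeval ![0, 1, 0] : R3 →ₐ[ℂ] ℂ) h3
    simp at h4
  obtain ⟨f, rfl⟩ := hdvd
  have hq' : q = f * MvPolynomial.X 1 ^ m := by
    refine mul_right_cancel₀ (pow_ne_zero n (MvPolynomial.X_ne_zero (0 : Fin 3))) ?_
    rw [← key]
    ring
  refine ⟨f, ?_, ?_⟩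
  · have hu : IsUnit (algebraMap R3 (L3 0) (MvPolynomial.X 0) ^ n) := (gen_unit 0).pow n
    refine hu.mul_right_cancel ?_
    rw [hp, map_mul, map_pow]
    ring
  · have hu : IsUnit (algebraMap R3 (L3 1) (MvPolynomial.X 1) ^ m) := (gen_unit 1).pow m
    refine hu.mul_right_cancel ?_
    rw [hq, hq', map_mul, map_pow]

/-- The values at Weierstrass curves are given by a polynomial. -/
theorem exists_poly (F : Reg 1 1) : ∃ f : R3, ∀ (B : Type) [CommRing B] [Algebra ℂ B] (a b τ : B)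
    (hs : IsStable 1 (Wei (WZ a b))), Ideal.span {a, b} = ⊤ →
    F.F B (Wei (WZ a b)) hs (cov six a b τ) = MvPolynomial.aeval ![a, b, τ] f := by
  have u0 : IsUnit (gen 0 0) ∨ IsUnit (gen 0 1) := Or.inl (gen_unit 0)
  have u1 : IsUnit (gen 1 0) ∨ IsUnit (gen 1 1) := Or.inr (gen_unit 1)
  obtain ⟨f, h0, h1⟩ := glue (uval F 0 u0) (uval F 1 u1) (fun a b τ ha hb => by
    have hs : IsStable 1 (Wei (WZ a b)) := stable_of (span_of_unit (Or.inl (IsUnit.mk0 a ha)))
    rw [← uval_ev F 0 u0 a b τ (IsUnit.mk0 a ha) hs, ← uval_ev F 1 u1 a b τ (IsUnit.mk0 b hb) hs])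
  have key : ∀ (B : Type) [CommRing B] [Algebra ℂ B] (a b τ : B)
      (hs : IsStable 1 (Wei (WZ a b))), IsUnit a ∨ IsUnit b →
      F.F B (Wei (WZ a b)) hs (cov six a b τ) = MvPolynomial.aeval ![a, b, τ] f := by
    intro B _ _ a b τ hs hu
    rcases hu with hu | hu
    · rw [uval_ev F 0 u0 a b τ hu hs, h0]
      exact ev_alg _ _ _ _
    · rw [uval_ev F 1 u1 a b τ hu hs, h1]
      exact ev_alg _ _ _ _
  refine ⟨f, ?_⟩
  intro B _ _ a b τ hs hab
  have hloc : ∀ c : B, c = a ∨ c = b → ∃ n : ℕ, c ^ n *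
      (F.F B (Wei (WZ a b)) hs (cov six a b τ) - MvPolynomial.aeval ![a, b, τ] f) = 0 := by
    intro c hc
    let φ : B →ₐ[ℂ] Localization.Away c := IsScalarTower.toAlgHom ℂ B (Localization.Away c)
    have hu : IsUnit (φ a) ∨ IsUnit (φ b) := by
      rcases hc with rfl | rfl
      · exact Or.inl (IsLocalization.Away.algebraMap_isUnit (S := Localization.Away c) c)
      · exact Or.inr (IsLocalization.Away.algebraMap_isUnit (S := Localization.Away c) c)
    have hs' : IsStable 1 (Wei (WZ (φ a) (φ b))) := stable_of (span_of_unit hu)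
    have h2 := key _ (φ a) (φ b) (φ τ) hs' hu
    rw [nat_val F φ rfl rfl rfl hs hs'] at h2
    have h3 : MvPolynomial.aeval ![φ a, φ b, φ τ] f = φ (MvPolynomial.aeval ![a, b, τ] f) := by
      have e : (φ.comp (MvPolynomial.aeval ![a, b, τ]) : R3 →ₐ[ℂ] Localization.Away c) =
          MvPolynomial.aeval ![φ a, φ b, φ τ] := by
        ext i
        fin_cases i <;> simp
      rw [← e]
      rfl
    rw [h3, ← sub_eq_zero, ← map_sub] at h2
    have h4 : algebraMap B (Localization.Away c) (F.F B (Wei (WZ a b)) hs (cov six a b τ) -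
      MvPolynomial.aeval ![a, b, τ] f) = 0 := h2
    rw [IsLocalization.map_eq_zero_iff (Submonoid.powers c)] at h4
    obtain ⟨⟨_, n, rfl⟩, hn⟩ := h4
    exact ⟨n, hn⟩
  obtain ⟨n, hn⟩ := hloc a (Or.inl rfl)
  obtain ⟨m, hm⟩ := hloc b (Or.inr rfl)
  have hcop : IsCoprime a b := by
    rw [Ideal.eq_top_iff_one, Ideal.mem_span_pair] at hab
    obtain ⟨r, s, hrs⟩ := hab
    exact ⟨r, s, hrs⟩
  obtain ⟨r, s, hrs⟩ := hcop.pow (m := n) (n := m)
  rw [← sub_eq_zero]
  linear_combination r * hn + s * hm - (F.F B (Wei (WZ a b)) hs (cov six a b τ) -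
    MvPolynomial.aeval ![a, b, τ] f) * hrs

end Pool.Agent.MG.One
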